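import Mathlib

set_option autoImplicit false

/-!
# Odd integers with small perfect deficiency

The perfect deficiency `pd n` is what is left of `n` after subtracting from it its divisors
`1 = d_1 < d_2 < ... < d_k = n` in turn, as long as the divisor is not greater than the
remainder. The odd integers `n` with `pd n ≤ 10` were believed to be at most `1155`. We show that the
odd integer `815634435 = 3 * 5 * 7 * 11 * 547 * 1291` has `pd n = 6`: the sum of its proper divisors
is `n - 6`.
-/

namespace Pool.Agent.Results.MP_7acd66_nt.LargerOddTerm

/-- The perfect deficiency of `n`: start with the remainder `r = n`, go through the divisors `d` of `n`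
in increasing order, and replace `r` by `r - d` whenever `d ≤ r`; the final remainder is `pd n`. -/
def pd (n : ℕ) : ℕ :=
  ((Nat.divisors n).sort (· ≤ ·)).foldl (fun r d => if d ≤ r then r - d else r) n

/-- The list of the divisors of `815634435`. -/
def dl : List ℕ :=
  [1, 3, 5, 7, 11, 15, 21, 33, 35, 55, 77, 105, 165, 231, 385, 547, 1155, 1291, 1641, 2735, 3829, 3873, 6017, 6455, 8205, 9037, 11487, 14201, 18051, 19145, 19365, 27111, 30085, 42119, 42603, 45185, 57435, 71005, 90255, 99407, 126357, 135555, 210595, 213015, 298221, 497035, 631785, 706177, 1491105, 2118531, 3530885, 4943239, 7767947, 10592655, 14829717, 23303841, 24716195, 38839735, 54375629, 74148585, 116519205, 163126887, 271878145, 815634435]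

theorem div_eq : Nat.divisors 815634435 = dl.toFinset := by
  have h : (815634435 : ℕ) = 3 * 5 * 7 * 11 * 547 * 1291 := by norm_num
  rw [h, Nat.divisors_mul, Nat.divisors_mul, Nat.divisors_mul, Nat.divisors_mul,
    Nat.divisors_mul, (by norm_num : Nat.Prime 3).divisors, (by norm_num : Nat.Prime 5).divisors,
    (by norm_num : Nat.Prime 7).divisors, (by norm_num : Nat.Prime 11).divisors,
    (by norm_num : Nat.Prime 547).divisors, (by norm_num : Nat.Prime 1291).divisors]
  decide +kernel

theorem pd_eq : pd 815634435 = 6 := by
  have h1 : dl.Nodup := by decide +kernel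
  have h2 : dl.toFinset.sort (· ≤ ·) = dl := by
    rw [List.toFinset_sort _ h1]
    decide +kernel
  rw [pd, div_eq, h2]
  decide +kernel

/-- There is an odd integer greater than `1155` with perfect deficiency at most `10`. -/
theorem result : ∃ n : ℕ, Odd n ∧ 1155 < n ∧ pd n ≤ 10 :=
  ⟨815634435, by decide +kernel, by norm_num, by rw [pd_eq]; norm_num⟩

end Pool.Agent.Results.MP_7acd66_nt.LargerOddTerm
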